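import Pool.Agent.H361R3.Exist

set_option autoImplicit false

/-!
# The unit group of the rank completion is contractible

For a field `K` let `M(K)` be the completion of the union of the matrix algebras `M_{2^n}(K)`
under the diagonal doublings `x ↦ diag(x, x)`, in the normalised rank metric. We show that `M(K)`
exists and that its group of invertible elements, with the topology given by the metric, is
contractible. For `K` the field with `q` elements this is the group `A(q)`.

Idea of the proof: `M(K)` is generated by commuting copies of `M_2(K)` at the positions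
`0, 1, 2, ...`. Moving the position `i` to `2 i` for `i = 0, 1, 2, ...`, one after the other along
paths of units, gives a homotopy, through inner automorphisms, from the identity to an endomorphism
`ρ` whose image commutes with everything at the odd positions; there one finds a continuous path
of idempotents `e_t` from `1` to `0`, and `u ↦ ρ(u) e_t + (1 - e_t)` contracts `ρ`.
-/

namespace Pool.Agent.Results.MP_242378_al.UnitGroupContractible

universe u v

/-- The bijection of `Fin (2 ^ n) ⊕ Fin (2 ^ n)` with `Fin (2 ^ (n + 1))` which lists the first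
block and then the second block. -/
def blocks (n : ℕ) : Fin (2 ^ n) ⊕ Fin (2 ^ n) ≃ Fin (2 ^ (n + 1)) :=
  finSumFinEquiv.trans (finCongr (by rw [pow_succ, mul_two]))

/-- The diagonal doubling `x ↦ diag(x, x)` from `M_{2^n}(K)` to `M_{2^(n+1)}(K)`. -/
def doubling {K : Type*} [Zero K] (n : ℕ) (x : Matrix (Fin (2 ^ n)) (Fin (2 ^ n)) K) :
    Matrix (Fin (2 ^ (n + 1))) (Fin (2 ^ (n + 1))) K :=
  Matrix.reindex (blocks n) (blocks n) (Matrix.fromBlocks x 0 0 x)

/-- `M`, with the ring homomorphisms `ι n : M_{2^n}(K) → M`, is the completion `M(K)` of the union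
of the matrix algebras `M_{2^n}(K)` with respect to the normalised rank metric: `M` is a ring with
a complete metric for which the ring operations are continuous, the maps `ι n` are compatible with
the doubling maps and isometric for the normalised rank metric, and the union of their images is
dense. -/
structure IsRankCompletion (K : Type u) [Field K] (M : Type v) [Ring M] [MetricSpace M]
    (ι : ∀ n : ℕ, Matrix (Fin (2 ^ n)) (Fin (2 ^ n)) K →+* M) : Prop where
  topologicalRing : IsTopologicalRing M
  complete : CompleteSpace M
  map_doubling : ∀ (n : ℕ) (x : Matrix (Fin (2 ^ n)) (Fin (2 ^ n)) K),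
    ι (n + 1) (doubling n x) = ι n x
  dist_map : ∀ (n : ℕ) (x y : Matrix (Fin (2 ^ n)) (Fin (2 ^ n)) K),
    dist (ι n x) (ι n y) = ((x - y).rank : ℝ) / 2 ^ n
  dense : Dense (⋃ n : ℕ, Set.range (ι n))

open Pool.Agent.H361R3

theorem isData {K : Type u} [Field K] {M : Type v} [Ring M] [MetricSpace M]
    {ι : ∀ n : ℕ, Matrix (Fin (2 ^ n)) (Fin (2 ^ n)) K →+* M} (h : IsRankCompletion K M ι) :
    IsData (fun n => (ι n).comp
      ((Matrix.reindexAlgEquiv K K (eI n)).toRingEquiv.toRingHom) :
        ∀ n, Matrix (I n) (I n) K →+* M) where
  dist_j := by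
    intro n x y
    change dist (ι n (Matrix.reindex (eI n) (eI n) x)) (ι n (Matrix.reindex (eI n) (eI n) y)) = _
    rw [h.dist_map]
    have : Matrix.reindex (eI n) (eI n) x - Matrix.reindex (eI n) (eI n) y =
        Matrix.reindex (eI n) (eI n) (x - y) := rfl
    rw [this, Matrix.rank_reindex]
  j_up := by
    intro n x
    change ι (n + 1) (Matrix.reindex (eI (n + 1)) (eI (n + 1)) (up n x)) =
      ι n (Matrix.reindex (eI n) (eI n) x)
    rw [← double_reindex]
    exact h.map_doubling n _
  dense := by
    intro x ε hε
    obtain ⟨y, hy, hxy⟩ := Metric.mem_closure_iff.1 (h.dense x) ε hε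
    obtain ⟨n, a, rfl⟩ := Set.mem_iUnion.1 hy
    refine ⟨n, (Matrix.reindex (eI n) (eI n)).symm a, ?_⟩
    change dist x (ι n (Matrix.reindex (eI n) (eI n) ((Matrix.reindex (eI n) (eI n)).symm a))) < ε
    rw [Equiv.apply_symm_apply]
    exact hxy

/-- the completion exists -/
theorem exists_completion (K : Type u) [Field K] :
    ∃ (M : Type u) (_ : Ring M) (_ : MetricSpace M)
      (ι : ∀ n : ℕ, Matrix (Fin (2 ^ n)) (Fin (2 ^ n)) K →+* M), IsRankCompletion K M ι := by
  refine ⟨UniformSpace.Completion (US K), inferInstance, inferInstance,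
    fun n => (UniformSpace.Completion.coeRingHom (α := US K)).comp ((phiU n).comp
      ((Matrix.reindexAlgEquiv K K (eI n).symm).toRingEquiv.toRingHom)), ?_⟩
  refine ⟨inferInstance, inferInstance, ?_, ?_, ?_⟩
  · intro n x
    change ((phiU (n + 1) (Matrix.reindex (eI (n + 1)).symm (eI (n + 1)).symm (doubling n x)) :
      US K) : UniformSpace.Completion (US K)) =
        ((phiU n (Matrix.reindex (eI n).symm (eI n).symm x) : US K) :
          UniformSpace.Completion (US K))
    congr 1
    apply Subtype.ext
    change phi (n + 1) (Matrix.reindex (eI (n + 1)).symm (eI (n + 1)).symm (double n x)) =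
      phi n (Matrix.reindex (eI n).symm (eI n).symm x)
    obtain ⟨a, rfl⟩ := (Matrix.reindex (eI n) (eI n)).surjective x
    rw [double_reindex]
    have h1 : Matrix.reindex (eI (n + 1)).symm (eI (n + 1)).symm
        (Matrix.reindex (eI (n + 1)) (eI (n + 1)) (up n a)) = up n a :=
      (Matrix.reindex (eI (n + 1)) (eI (n + 1))).symm_apply_apply _
    have h2 : Matrix.reindex (eI n).symm (eI n).symm (Matrix.reindex (eI n) (eI n) a) = a :=
      (Matrix.reindex (eI n) (eI n)).symm_apply_apply _
    rw [h1, h2, phi_up]
  · intro n x y
    change dist ((phiU n (Matrix.reindex (eI n).symm (eI n).symm x) : US K) :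
      UniformSpace.Completion (US K)) ((phiU n (Matrix.reindex (eI n).symm (eI n).symm y) : US K) :
      UniformSpace.Completion (US K)) = _
    rw [UniformSpace.Completion.dist_eq, dist_phiU]
    have : Matrix.reindex (eI n).symm (eI n).symm x - Matrix.reindex (eI n).symm (eI n).symm y =
        Matrix.reindex (eI n).symm (eI n).symm (x - y) := rfl
    rw [this, Matrix.rank_reindex]
  · refine (UniformSpace.Completion.denseRange_coe (α := US K)).mono ?_
    rintro _ ⟨⟨T, n, a, rfl⟩, rfl⟩
    refine Set.mem_iUnion.2 ⟨n, Matrix.reindex (eI n) (eI n) a, ?_⟩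
    change ((phiU n (Matrix.reindex (eI n).symm (eI n).symm (Matrix.reindex (eI n) (eI n) a)) :
      US K) : UniformSpace.Completion (US K)) = _
    have h2 : Matrix.reindex (eI n).symm (eI n).symm (Matrix.reindex (eI n) (eI n) a) = a :=
      (Matrix.reindex (eI n) (eI n)).symm_apply_apply _
    rw [h2]
    rfl

/-- **Contractibility of the unit group.** For every field `K` (in particular every finite field)
the rank completion `M(K)` of the union of the algebras `M_{2^n}(K)` exists, and for each model
`M` of it the set of its invertible elements, with the topology of the metric, is contractible. -/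
theorem result (K : Type u) [Field K] :
    (∃ (M : Type u) (_ : Ring M) (_ : MetricSpace M)
      (ι : ∀ n : ℕ, Matrix (Fin (2 ^ n)) (Fin (2 ^ n)) K →+* M), IsRankCompletion K M ι) ∧
    ∀ (M : Type v) [Ring M] [MetricSpace M]
      (ι : ∀ n : ℕ, Matrix (Fin (2 ^ n)) (Fin (2 ^ n)) K →+* M),
      IsRankCompletion K M ι → ContractibleSpace {x : M // IsUnit x} := by
  refine ⟨exists_completion K, ?_⟩
  intro M _ _ ι h
  have := h.topologicalRing
  have := h.complete
  exact contractible_of_isData (isData h)

end Pool.Agent.Results.MP_242378_al.UnitGroupContractible
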